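import Mathlib

/-! Words containing all `k`-permutations of an alphabet as subsequences. -/

namespace Pool.Agent.H426.KP

open Finset

variable {α : Type} [DecidableEq α]

/-- `w` contains (as a subsequence) every list of `k` distinct elements of `S`. -/
def Universal (k : ℕ) (S : Finset α) (w : List α) : Prop :=
  ∀ p : List α, p.Nodup → (∀ x ∈ p, x ∈ S) → p.length = k → List.Sublist p w

/-- number of entries of `w` that lie in `S` -/
def cnt (S : Finset α) (w : List α) : ℕ := ∑ c ∈ S, w.count c

lemma Universal.mono_set {k : ℕ} {S T : Finset α} {w : List α} (h : Universal k S w)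
    (hTS : T ⊆ S) : Universal k T w :=
  fun p hp hm hl => h p hp (fun x hx => hTS (hm x hx)) hl

lemma exists_perm {S : Finset α} {k : ℕ} (h : k ≤ S.card) :
    ∃ p : List α, p.Nodup ∧ (∀ x ∈ p, x ∈ S) ∧ p.length = k := by
  refine ⟨S.toList.take k, ?_, ?_, ?_⟩
  · exact (S.nodup_toList).sublist (List.take_sublist _ _)
  · intro x hx
    exact Finset.mem_toList.1 (List.mem_of_mem_take hx)
  · simp [h]

lemma extend_perm {S : Finset α} {k : ℕ} (h : k ≤ S.card) {p : List α} (hp : p.Nodup)
    (hpS : ∀ x ∈ p, x ∈ S) (hl : p.length ≤ k) :
    ∃ q : List α, (p ++ q).Nodup ∧ (∀ x ∈ p ++ q, x ∈ S) ∧ (p ++ q).length = k := by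
  have hc : p.toFinset.card = p.length := List.toFinset_card_of_nodup hp
  have hsub : p.toFinset ⊆ S := fun x hx => hpS x (List.mem_toFinset.1 hx)
  have h1 : k - p.length ≤ (S \ p.toFinset).card := by
    rw [Finset.card_sdiff_of_subset hsub, hc]; omega
  obtain ⟨q, hq, hqm, hql⟩ := exists_perm h1
  refine ⟨q, ?_, ?_, ?_⟩
  · rw [List.nodup_append]
    refine ⟨hp, hq, ?_⟩
    intro a ha b hb hab
    subst hab
    have := hqm a hb
    rw [Finset.mem_sdiff] at this
    exact this.2 (List.mem_toFinset.2 ha)
  · intro x hx
    rcases List.mem_append.1 hx with hx | hx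
    · exact hpS x hx
    · exact (Finset.mem_sdiff.1 (hqm x hx)).1
  · rw [List.length_append, hql]; omega

lemma Universal.mono_len {k j : ℕ} {S : Finset α} {w : List α} (h : Universal k S w)
    (hk : k ≤ S.card) (hj : j ≤ k) : Universal j S w := by
  intro p hp hm hl
  obtain ⟨q, h1, h2, h3⟩ := extend_perm hk hp hm (by omega)
  exact (List.sublist_append_left p q).trans (h _ h1 h2 h3)

/-- front cut -/
lemma front_cut {j : ℕ} {S : Finset α} {w : List α} (h : Universal j S w) (hj : j ≤ S.card) :
    ∃ (t : ℕ) (y : List α), y.Nodup ∧ (∀ x ∈ y, x ∈ S) ∧ y.length = j ∧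
      Universal j S (w.take t) ∧ ∀ q : List α, List.Sublist (y ++ q) w →
        List.Sublist q (w.drop t) := by
  classical
  have hex : ∃ t, Universal j S (w.take t) := ⟨w.length, by simpa using h⟩
  have hspec := Nat.find_spec hex
  rcases Nat.eq_zero_or_pos (Nat.find hex) with h0 | hpos
  · obtain ⟨y, hy1, hy2, hy3⟩ := exists_perm hj
    refine ⟨0, y, hy1, hy2, hy3, by simpa [h0] using hspec, ?_⟩
    intro q hq
    simpa using (List.sublist_append_right y q).trans hq
  · have hmin := Nat.find_min hex (Nat.sub_lt hpos one_pos)
    unfold Universal at hmin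
    push Not at hmin
    obtain ⟨y, hy1, hy2, hy3, hy4⟩ := hmin
    refine ⟨Nat.find hex, y, hy1, hy2, hy3, hspec, ?_⟩
    intro q hq
    obtain ⟨w1, w2, hw, h1, h2⟩ := List.append_sublist_iff.1 hq
    have hlen : Nat.find hex ≤ w1.length := by
      by_contra hlt
      apply hy4
      have h3 : w1 = w.take w1.length := by rw [hw]; simp
      have h4 : List.Sublist (w.take w1.length) (w.take (Nat.find hex - 1)) := by
        have : w1.length ≤ Nat.find hex - 1 := by omega
        exact List.take_sublist_take_left this
      exact h1.trans (h3 ▸ h4)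
    have h3 : w2 = w.drop w1.length := by rw [hw]; simp
    rw [h3] at h2
    exact h2.trans (List.drop_sublist_drop_left _ hlen)

/-- back cut -/
lemma back_cut {j : ℕ} {S : Finset α} {w : List α} (h : Universal j S w) (hj : j ≤ S.card) :
    ∃ (s : ℕ) (z : List α), z.Nodup ∧ (∀ x ∈ z, x ∈ S) ∧ z.length = j ∧
      Universal j S (w.drop s) ∧ ∀ q : List α, List.Sublist (q ++ z) w →
        List.Sublist q (w.take s) := by
  classical
  have hex : ∃ t, Universal j S (w.drop (w.length - t)) := ⟨w.length, by simpa using h⟩
  have hspec := Nat.find_spec hex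
  have hle : Nat.find hex ≤ w.length := Nat.find_min' hex (by simpa using h)
  rcases Nat.eq_zero_or_pos (Nat.find hex) with h0 | hpos
  · obtain ⟨z, hz1, hz2, hz3⟩ := exists_perm hj
    refine ⟨w.length, z, hz1, hz2, hz3, by simpa [h0] using hspec, ?_⟩
    intro q hq
    simpa using (List.sublist_append_left q z).trans hq
  · have hmin := Nat.find_min hex (Nat.sub_lt hpos one_pos)
    unfold Universal at hmin
    push Not at hmin
    obtain ⟨z, hz1, hz2, hz3, hz4⟩ := hmin
    refine ⟨w.length - Nat.find hex, z, hz1, hz2, hz3, hspec, ?_⟩
    intro q hq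
    obtain ⟨w1, w2, hw, h1, h2⟩ := List.append_sublist_iff.1 hq
    have hw1 : w1.length ≤ w.length := by rw [hw]; simp
    have hlen : w1.length ≤ w.length - Nat.find hex := by
      by_contra hlt
      apply hz4
      have h3 : w2 = w.drop w1.length := by rw [hw]; simp
      have h4 : List.Sublist (w.drop w1.length) (w.drop (w.length - (Nat.find hex - 1))) := by
        have : w.length - (Nat.find hex - 1) ≤ w1.length := by omega
        exact List.drop_sublist_drop_left _ this
      exact h2.trans (h3 ▸ h4)
    have h3 : w1 = w.take w1.length := by rw [hw]; simp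
    rw [h3] at h1
    exact h1.trans (List.take_sublist_take_left hlen)

lemma count_split (w : List α) (c : α) (t : ℕ) :
    w.count c = (w.take t).count c + (w.drop t).count c := by
  conv_lhs => rw [← List.take_append_drop t w]
  rw [List.count_append]

/-- At most `k` letters occur fewer than `k` times. -/
lemma few_rare (k : ℕ) : ∀ (S : Finset α) (w : List α), k ≤ S.card → Universal k S w →
    (S.filter (fun c => w.count c < k)).card ≤ k := by
  induction k with
  | zero => intro S w _ _; simp
  | succ k ih =>
    intro S w hk h
    have h1 : Universal 1 S w := h.mono_len hk (by omega)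
    obtain ⟨t, y, hy1, hy2, hy3, hy4, hy5⟩ := front_cut h1 (by omega)
    obtain ⟨x, rfl⟩ := List.length_eq_one_iff.1 hy3
    have hxS : x ∈ S := hy2 x (by simp)
    have hU : Universal k (S.erase x) (w.drop t) := by
      intro p hp hm hl
      apply hy5
      apply h
      · rw [List.nodup_append]
        refine ⟨by simp, hp, ?_⟩
        intro a ha b hb hab
        subst hab
        have hax : a = x := by simpa using ha
        have := hm a hb
        rw [hax] at this
        exact absurd this (Finset.notMem_erase x S)
      · intro a ha
        rcases List.mem_append.1 ha with ha | ha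
        · have hax : a = x := by simpa using ha
          rw [hax]; exact hxS
        · exact Finset.mem_of_mem_erase (hm a ha)
      · simp [hl]
    have hc : k ≤ (S.erase x).card := by
      rw [Finset.card_erase_of_mem hxS]; omega
    have hih := ih (S.erase x) (w.drop t) hc hU
    have hsub : S.filter (fun c => w.count c < k + 1) ⊆
        insert x ((S.erase x).filter (fun c => (w.drop t).count c < k)) := by
      intro c hcm
      rw [Finset.mem_filter] at hcm
      rw [Finset.mem_insert]
      by_cases hcx : c = x
      · exact Or.inl hcx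
      · right
        rw [Finset.mem_filter]
        refine ⟨Finset.mem_erase.2 ⟨hcx, hcm.1⟩, ?_⟩
        have h2 : List.Sublist [c] (w.take t) := hy4 [c] (by simp) (by simpa using hcm.1) rfl
        have h3 : 0 < (w.take t).count c := by
          rw [List.count_pos_iff]
          exact List.singleton_sublist.1 h2
        have h4 := count_split w c t
        omega
    exact (Finset.card_le_card hsub).trans ((Finset.card_insert_le _ _).trans (by omega))

end Pool.Agent.H426.KP
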