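import Mathlib
import Pool.Agent.Helper426.KP.Basic

/-! The recursive lower bound when no letter occurs more than `k` times. -/

namespace Pool.Agent.H426.KP

open Finset

variable {α : Type} [DecidableEq α]

lemma cnt_union {A B : Finset α} (h : Disjoint A B) (w : List α) :
    cnt (A ∪ B) w = cnt A w + cnt B w := Finset.sum_union h

lemma cnt_le_of_le {A : Finset α} {w : List α} {m : ℕ} (h : ∀ c ∈ A, w.count c ≤ m) :
    cnt A w ≤ m * A.card := by
  have := Finset.sum_le_card_nsmul A (fun c => w.count c) m h
  simpa [cnt, mul_comm] using this

lemma le_cnt_of_le {A : Finset α} {w : List α} {m : ℕ} (h : ∀ c ∈ A, m ≤ w.count c) :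
    m * A.card ≤ cnt A w := by
  have := Finset.card_nsmul_le_sum A (fun c => w.count c) m h
  simpa [cnt, mul_comm] using this

lemma cnt_subset {A B : Finset α} (h : A ⊆ B) (w : List α) : cnt A w ≤ cnt B w :=
  Finset.sum_le_sum_of_subset h

/-- `k |A| ≤ cnt A w + k (k-1) / 2` for every set `A` of letters -/
lemma deficit (k : ℕ) : ∀ (S : Finset α) (w : List α), k ≤ S.card → Universal k S w →
    ∀ A : Finset α, A ⊆ S → k * A.card ≤ cnt A w + k * (k - 1) / 2 := by
  induction k with
  | zero => intro S w _ _ A _; simp
  | succ k ih =>
    intro S w hk h A hAS
    have h1 : Universal 1 S w := h.mono_len hk (by omega)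
    obtain ⟨t, y, hy1, hy2, hy3, hy4, hy5⟩ := front_cut h1 (by omega)
    obtain ⟨x, rfl⟩ := List.length_eq_one_iff.1 hy3
    have hxS : x ∈ S := hy2 x (by simp)
    have hU : Universal k (S.erase x) (w.drop t) := by
      intro p hp hm hl
      apply hy5
      apply h
      · rw [List.nodup_append]
        refine ⟨by simp, hp, ?_⟩
        intro a ha b hb hab
        subst hab
        have hax : a = x := by simpa using ha
        have := hm a hb
        rw [hax] at this
        exact absurd this (Finset.notMem_erase x S)
      · intro a ha
        rcases List.mem_append.1 ha with ha | ha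
        · have hax : a = x := by simpa using ha
          rw [hax]; exact hxS
        · exact Finset.mem_of_mem_erase (hm a ha)
      · simp [hl]
    have hc : k ≤ (S.erase x).card := by
      rw [Finset.card_erase_of_mem hxS]; omega
    have hih := ih (S.erase x) (w.drop t) hc hU (A.erase x) (Finset.erase_subset_erase x hAS)
    have hone : ∀ c ∈ S, 1 ≤ (w.take t).count c := by
      intro c hcS
      have h2 : List.Sublist [c] (w.take t) := hy4 [c] (by simp) (by simpa using hcS) rfl
      exact List.count_pos_iff.2 (List.singleton_sublist.1 h2)
    have hsum : cnt (A.erase x) (w.drop t) + (A.erase x).card ≤ cnt (A.erase x) w := by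
      unfold cnt
      rw [Finset.card_eq_sum_ones, ← Finset.sum_add_distrib]
      apply Finset.sum_le_sum
      intro c hcA
      have h3 := count_split w c t
      have h4 := hone c (hAS (Finset.mem_of_mem_erase hcA))
      omega
    have htri : (k + 1) * (k + 1 - 1) / 2 = k * (k - 1) / 2 + k := by
      have := Nat.triangle_succ k
      simpa [mul_comm] using this
    rw [htri]
    by_cases hxA : x ∈ A
    · have h5 : cnt A w = w.count x + cnt (A.erase x) w := by
        unfold cnt
        rw [Finset.add_sum_erase A (fun c => w.count c) hxA]
      have h6 : 1 ≤ w.count x := by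
        have h3 := count_split w x t
        have h4 := hone x hxS
        omega
      have h7 : A.card = (A.erase x).card + 1 := by
        rw [Finset.card_erase_of_mem hxA]
        have : 0 < A.card := Finset.card_pos.2 ⟨x, hxA⟩
        omega
      rw [h7]
      have h8 : (k + 1) * ((A.erase x).card + 1) = k * (A.erase x).card + (A.erase x).card + k + 1 := by
        ring
      omega
    · rw [Finset.erase_eq_of_notMem hxA] at hih hsum
      have h8 : (k + 1) * A.card = k * A.card + A.card := by ring
      omega

/-- lower bound for the number of `H`-letters in a piece that is `h`-universal for a large set and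
in which the letters outside `H` occur at most `h` times -/
lemma pieceC {h T N : ℕ} {H G : Finset α} {L : List α} (hdis : Disjoint H G)
    (hIH : ∀ (S : Finset α) (w : List α), N ≤ S.card → (∀ c ∈ S, w.count c ≤ h) →
      Universal h S w → h * S.card ≤ cnt S w + T)
    (hN : N ≤ G.card) (hU : Universal h (H ∪ G) L)
    (hG : ∀ c ∈ G, L.count c ≤ h) : h * H.card ≤ cnt H L + T := by
  set H1 := H.filter (fun c => L.count c ≤ h) with hH1
  set H2 := H.filter (fun c => ¬ L.count c ≤ h) with hH2
  have hd12 : Disjoint H1 H2 := Finset.disjoint_filter_filter_not H H _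
  have hun : H1 ∪ H2 = H := Finset.filter_union_filter_not_eq _ H
  have hd1G : Disjoint H1 G := Finset.disjoint_of_subset_left (Finset.filter_subset _ _) hdis
  have h1 := hIH (H1 ∪ G) L (by rw [Finset.card_union_of_disjoint hd1G]; omega)
    (by
      intro c hc
      rcases Finset.mem_union.1 hc with hc | hc
      · exact (Finset.mem_filter.1 hc).2
      · exact hG c hc)
    (hU.mono_set (Finset.union_subset_union (Finset.filter_subset _ _) (Finset.Subset.refl _)))
  rw [Finset.card_union_of_disjoint hd1G, cnt_union hd1G] at h1
  have h2 := cnt_le_of_le hG
  have h3 : h * (H1.card + G.card) = h * H1.card + h * G.card := by ring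
  have h4 : h * H2.card ≤ cnt H2 L := le_cnt_of_le (fun c hc => by
    have := (Finset.mem_filter.1 hc).2
    omega)
  have h5 : cnt H L = cnt H1 L + cnt H2 L := by rw [← cnt_union hd12, hun]
  have h6 : H.card = H1.card + H2.card := by rw [← Finset.card_union_of_disjoint hd12, hun]
  rw [h5, h6]
  have h7 : h * (H1.card + H2.card) = h * H1.card + h * H2.card := by ring
  omega

/-- the recursive step -/
lemma stepC {a b Ta Tb Na Nb : ℕ} {S : Finset α} {w : List α}
    (hIHa : ∀ (S : Finset α) (w : List α), Na ≤ S.card → (∀ c ∈ S, w.count c ≤ a) →
      Universal a S w → a * S.card ≤ cnt S w + Ta)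
    (hIHb : ∀ (S : Finset α) (w : List α), Nb ≤ S.card → (∀ c ∈ S, w.count c ≤ b) →
      Universal b S w → b * S.card ≤ cnt S w + Tb)
    (hA : (a + b + 1) + 2 * (b + 1) + Na ≤ S.card)
    (hB : (a + b + 1) + 2 * (a + 1) + Nb ≤ S.card)
    (hS : 2 * (a + b + 1) + 2 ≤ S.card)
    (hcount : ∀ c ∈ S, w.count c ≤ a + b + 1)
    (hU : Universal (a + b + 1) S w) :
    (a + b + 1) * S.card ≤ cnt S w + (a + b + 1) + Ta + Tb := by
  classical
  set k := a + b + 1 with hk
  set H := S.filter (fun c => w.count c < k) with hH
  have hHk : H.card ≤ k := few_rare k S w (by omega) hU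
  have hHS : H ⊆ S := Finset.filter_subset _ _
  set S' := S \ H with hS'
  have hS'c : S'.card + H.card = S.card := Finset.card_sdiff_add_card_eq_card hHS
  have hS'S : S' ⊆ S := Finset.sdiff_subset
  have hcntS : cnt S w = cnt H w + cnt S' w := by
    rw [← cnt_union Finset.disjoint_sdiff, Finset.union_sdiff_of_subset hHS]
  have hS'k : k * S'.card ≤ cnt S' w := le_cnt_of_le (fun c hc => by
    rw [hS', Finset.mem_sdiff, hH, Finset.mem_filter] at hc
    by_contra hlt'
    exact hc.2 ⟨hc.1, by omega⟩)
  have hU' : Universal k S' w := hU.mono_set hS'S
  -- the two cuts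
  have hUa : Universal (a + 1) S' w := hU'.mono_len (by omega) (by omega)
  have hUb : Universal (b + 1) S' w := hU'.mono_len (by omega) (by omega)
  obtain ⟨t, y, hy1, hy2, hy3, hy4, hy5⟩ := front_cut hUa (by omega)
  obtain ⟨s, z, hz1, hz2, hz3, hz4, hz5⟩ := back_cut hUb (by omega)
  set BP := S'.filter (fun c => (w.take t).count c < a + 1) with hBP
  set BQ := S'.filter (fun c => (w.drop s).count c < b + 1) with hBQ
  have hBPc : BP.card ≤ a + 1 := few_rare (a + 1) S' _ (by omega) hy4
  have hBQc : BQ.card ≤ b + 1 := few_rare (b + 1) S' _ (by omega) hz4
  rcases Nat.lt_or_ge s t with hst | hst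
  · -- overlapping case
    -- left piece
    have hL : a * H.card ≤ cnt H (w.take s) + Ta := by
      set G := S' \ (z.toFinset ∪ BQ) with hG
      have hGc : S'.card ≤ G.card + ((b + 1) + (b + 1)) := by
        have h1 : (z.toFinset ∪ BQ).card ≤ (b + 1) + (b + 1) := by
          have e1 := Finset.card_union_le (z.toFinset) BQ
          have e3 := List.toFinset_card_le z
          omega
        have h2 : S'.card ≤ G.card + (z.toFinset ∪ BQ).card := by
          have := Finset.card_le_card_sdiff_add_card (s := S') (t := z.toFinset ∪ BQ)
          exact this
        omega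
      have hdis : Disjoint H G := by
        rw [Finset.disjoint_left]
        intro c hc1 hc2
        rw [hG, Finset.mem_sdiff, hS', Finset.mem_sdiff] at hc2
        exact hc2.1.2 hc1
      refine pieceC hdis hIHa (by omega) ?_ ?_
      · intro p hp hm hl
        apply hz5
        apply hU
        · rw [List.nodup_append]
          refine ⟨hp, hz1, ?_⟩
          intro u hu v hv huv
          subst huv
          rcases Finset.mem_union.1 (hm u hu) with h1 | h1
          · have := hz2 u hv
            rw [hS', Finset.mem_sdiff] at this
            exact this.2 h1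
          · rw [hG, Finset.mem_sdiff] at h1
            apply h1.2
            simp [hv]
        · intro u hu
          rcases List.mem_append.1 hu with hu | hu
          · rcases Finset.mem_union.1 (hm u hu) with h1 | h1
            · exact hHS h1
            · rw [hG, Finset.mem_sdiff] at h1
              exact hS'S h1.1
          · exact hS'S (hz2 u hu)
        · rw [List.length_append, hl, hz3]; omega
      · intro c hc
        rw [hG, Finset.mem_sdiff] at hc
        have h1 := hcount c (hS'S hc.1)
        have h2 : ¬ ((w.drop s).count c < b + 1) := by
          intro hh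
          apply hc.2
          simp only [Finset.mem_union]
          right
          rw [hBQ, Finset.mem_filter]
          exact ⟨hc.1, hh⟩
        have h3 := count_split w c s
        omega
    -- right piece
    have hR : b * H.card ≤ cnt H (w.drop t) + Tb := by
      set G := S' \ (y.toFinset ∪ BP) with hG
      have hGc : S'.card ≤ G.card + ((a + 1) + (a + 1)) := by
        have h1 : (y.toFinset ∪ BP).card ≤ (a + 1) + (a + 1) := by
          have e1 := Finset.card_union_le (y.toFinset) BP
          have e3 := List.toFinset_card_le y
          omega
        have h2 : S'.card ≤ G.card + (y.toFinset ∪ BP).card := by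
          have := Finset.card_le_card_sdiff_add_card (s := S') (t := y.toFinset ∪ BP)
          exact this
        omega
      have hdis : Disjoint H G := by
        rw [Finset.disjoint_left]
        intro c hc1 hc2
        rw [hG, Finset.mem_sdiff, hS', Finset.mem_sdiff] at hc2
        exact hc2.1.2 hc1
      refine pieceC hdis hIHb (by omega) ?_ ?_
      · intro p hp hm hl
        apply hy5
        apply hU
        · rw [List.nodup_append]
          refine ⟨hy1, hp, ?_⟩
          intro u hu v hv huv
          subst huv
          rcases Finset.mem_union.1 (hm u hv) with h1 | h1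
          · have := hy2 u hu
            rw [hS', Finset.mem_sdiff] at this
            exact this.2 h1
          · rw [hG, Finset.mem_sdiff] at h1
            apply h1.2
            simp [hu]
        · intro u hu
          rcases List.mem_append.1 hu with hu | hu
          · exact hS'S (hy2 u hu)
          · rcases Finset.mem_union.1 (hm u hu) with h1 | h1
            · exact hHS h1
            · rw [hG, Finset.mem_sdiff] at h1
              exact hS'S h1.1
        · rw [List.length_append, hl, hy3]; omega
      · intro c hc
        rw [hG, Finset.mem_sdiff] at hc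
        have h1 := hcount c (hS'S hc.1)
        have h2 : ¬ ((w.take t).count c < a + 1) := by
          intro hh
          apply hc.2
          simp only [Finset.mem_union]
          right
          rw [hBP, Finset.mem_filter]
          exact ⟨hc.1, hh⟩
        have h3 := count_split w c t
        omega
    -- combine
    have hLR : cnt H (w.take s) + cnt H (w.drop t) ≤ cnt H w := by
      unfold cnt
      rw [← Finset.sum_add_distrib]
      apply Finset.sum_le_sum
      intro c _
      have h1 := count_split w c s
      have h2 : (w.drop t).count c ≤ (w.drop s).count c :=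
        (List.drop_sublist_drop_left _ hst.le).count_le c
      omega
    have hfin : k * S.card = k * H.card + k * S'.card := by rw [← hS'c]; ring
    have hfin2 : k * H.card = a * H.card + b * H.card + H.card := by rw [hk]; ring
    omega
  · -- disjoint case
    set G := S' \ (BP ∪ BQ) with hG
    have hGc : S'.card ≤ G.card + ((a + 1) + (b + 1)) := by
      have e1 := Finset.card_union_le BP BQ
      have h2 : S'.card ≤ G.card + (BP ∪ BQ).card :=
        Finset.card_le_card_sdiff_add_card (s := S') (t := BP ∪ BQ)
      omega
    exfalso
    have hGpos : 0 < G.card := by omega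
    obtain ⟨c, hc⟩ := Finset.card_pos.1 hGpos
    rw [hG, Finset.mem_sdiff] at hc
    have h2 : ¬ ((w.take t).count c < a + 1) := by
      intro hh
      apply hc.2
      rw [Finset.mem_union]
      exact Or.inl (by rw [hBP, Finset.mem_filter]; exact ⟨hc.1, hh⟩)
    have h3 : ¬ ((w.drop s).count c < b + 1) := by
      intro hh
      apply hc.2
      rw [Finset.mem_union]
      exact Or.inr (by rw [hBQ, Finset.mem_filter]; exact ⟨hc.1, hh⟩)
    have h4 := count_split w c t
    have h5 : (w.drop s).count c ≤ (w.drop t).count c :=
      (List.drop_sublist_drop_left _ hst).count_le c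
    have h6 := hcount c (hS'S hc.1)
    omega

end Pool.Agent.H426.KP
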