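import Mathlib
import Pool.Agent.Helper426.KP.MainC

/-! The lower bound for `g(n,k)` for all `n ≥ k`. -/

namespace Pool.Agent.H426.KP

open Finset

lemma clog_half {k : ℕ} (hk : 2 ≤ k) :
    Nat.clog 2 (k + 1) = Nat.clog 2 (k / 2 + 1) + 1 := by
  rw [Nat.clog_of_two_le (by norm_num) (by omega)]
  congr 2
  omega

lemma T_rec {k : ℕ} (hk : 2 ≤ k) :
    k + (((k - 1) / 2 + 1) * (Nat.clog 2 ((k - 1) / 2 + 1) - 1)) +
      ((k / 2 + 1) * (Nat.clog 2 (k / 2 + 1) - 1)) ≤ (k + 1) * (Nat.clog 2 (k + 1) - 1) := by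
  have h1 := clog_half hk
  have h2 : 1 ≤ Nat.clog 2 (k / 2 + 1) := Nat.clog_pos (by norm_num) (by omega)
  have h3 : Nat.clog 2 ((k - 1) / 2 + 1) ≤ Nat.clog 2 (k / 2 + 1) :=
    Nat.clog_mono_right 2 (by omega)
  set x := Nat.clog 2 (k / 2 + 1) with hx
  obtain ⟨m, hm⟩ : ∃ m, x = m + 1 := ⟨x - 1, by omega⟩
  have h4 : Nat.clog 2 ((k - 1) / 2 + 1) - 1 ≤ m := by omega
  have h5 : ((k - 1) / 2 + 1) * (Nat.clog 2 ((k - 1) / 2 + 1) - 1) ≤ ((k - 1) / 2 + 1) * m :=
    Nat.mul_le_mul_left _ h4
  have h6 : x - 1 = m := by omega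
  have h7 : Nat.clog 2 (k + 1) - 1 = m + 1 := by omega
  rw [h6, h7]
  have h8 : ((k - 1) / 2 + 1) + (k / 2 + 1) = k + 1 := by omega
  have h9 : (k + 1) * (m + 1) = (((k - 1) / 2 + 1) + (k / 2 + 1)) * m + (k + 1) := by
    rw [h8]; ring
  have h10 : (((k - 1) / 2 + 1) + (k / 2 + 1)) * m
      = ((k - 1) / 2 + 1) * m + (k / 2 + 1) * m := by ring
  omega

/-- if no letter of `S` occurs more than `k` times and `|S| ≥ 4(k+1)` -/
theorem bound_capped {α : Type} [DecidableEq α] (k : ℕ) : ∀ (S : Finset α) (w : List α),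
    4 * (k + 1) ≤ S.card → (∀ c ∈ S, w.count c ≤ k) → Universal k S w →
      k * S.card ≤ cnt S w + (k + 1) * (Nat.clog 2 (k + 1) - 1) := by
  induction k using Nat.strong_induction_on with
  | _ k ih =>
    intro S w hS hcount hU
    rcases Nat.lt_or_ge k 2 with hk | hk
    · rcases Nat.lt_or_ge k 1 with hk0 | hk1
      · have : k = 0 := by omega
        subst this; simp
      · have : k = 1 := by omega
        subst this
        have h1 : 1 * S.card ≤ cnt S w := le_cnt_of_le (fun c hc => by
          have h2 : List.Sublist [c] w := hU [c] (by simp) (by simpa using hc) rfl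
          exact List.count_pos_iff.2 (List.singleton_sublist.1 h2))
        omega
    · have hab : (k - 1) / 2 + k / 2 + 1 = k := by omega
      have hT := T_rec hk
      set a := (k - 1) / 2 with ha
      set b := k / 2 with hb
      have hst := stepC (Na := 4 * (a + 1)) (Nb := 4 * (b + 1)) (S := S) (w := w)
        (ih a (by omega)) (ih b (by omega)) (by omega) (by omega) (by omega)
        (by rw [hab]; exact hcount) (by rw [hab]; exact hU)
      rw [hab] at hst
      omega

theorem bound_all {α : Type} [DecidableEq α] (k : ℕ) (S : Finset α) (w : List α)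
    (hkS : k ≤ S.card) (hU : Universal k S w) :
    k * S.card ≤ cnt S w +
      max ((k + 1) * (Nat.clog 2 (k + 1) - 1)) (k * (k - 1) / 2 + 4 * (k + 1) - S.card) := by
  set S0 := S.filter (fun c => w.count c ≤ k) with hS0
  set E := S.filter (fun c => ¬ w.count c ≤ k) with hE
  have hdis : Disjoint S0 E := Finset.disjoint_filter_filter_not S S _
  have hun : S0 ∪ E = S := Finset.filter_union_filter_not_eq _ S
  have hcard : S.card = S0.card + E.card := by rw [← Finset.card_union_of_disjoint hdis, hun]
  have hcnt : cnt S w = cnt S0 w + cnt E w := by rw [← cnt_union hdis, hun]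
  have hEc : (k + 1) * E.card ≤ cnt E w := le_cnt_of_le (fun c hc => by
    have := (Finset.mem_filter.1 hc).2
    omega)
  have h1 : k * S.card = k * S0.card + k * E.card := by rw [hcard]; ring
  have h2 : (k + 1) * E.card = k * E.card + E.card := by ring
  have hsub : S0 ⊆ S := Finset.filter_subset _ _
  rcases Nat.lt_or_ge S0.card (4 * (k + 1)) with hlt | hge
  · have h3 := deficit k S w hkS hU S0 hsub
    have h4 := le_max_right ((k + 1) * (Nat.clog 2 (k + 1) - 1))
      (k * (k - 1) / 2 + 4 * (k + 1) - S.card)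
    omega
  · have h3 := bound_capped k S0 w hge (fun c hc => (Finset.mem_filter.1 hc).2)
      (hU.mono_set hsub)
    have h4 := le_max_left ((k + 1) * (Nat.clog 2 (k + 1) - 1))
      (k * (k - 1) / 2 + 4 * (k + 1) - S.card)
    omega

lemma cnt_univ {n : ℕ} (w : List (Fin n)) : cnt Finset.univ w = w.length := by
  induction w with
  | nil => simp [cnt]
  | cons x w ih =>
    unfold cnt at *
    simp only [List.count_cons, List.length_cons, Finset.sum_add_distrib, ih]
    simp

lemma word_exists (n k : ℕ) : ∃ w : List (Fin n),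
    ∀ p : List (Fin n), p.length = k → List.Sublist p w := by
  induction k with
  | zero => exact ⟨[], fun p hp => by rw [List.length_eq_zero_iff.1 hp]⟩
  | succ k ih =>
    obtain ⟨w, hw⟩ := ih
    refine ⟨List.finRange n ++ w, ?_⟩
    intro p hp
    cases p with
    | nil => simp at hp
    | cons x p =>
      have h1 : List.Sublist [x] (List.finRange n) := List.singleton_sublist.2 (by simp)
      have h2 := hw p (by simpa using hp)
      exact h1.append h2

end Pool.Agent.H426.KP
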