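import Mathlib
import Pool.Agent.Helper426.KP.Basic

/-! `g(n+1,k) ≥ g(n,k) + k` for `n ≥ k`. -/

namespace Pool.Agent.H426.KP

open Finset

lemma length_filter_ne {α : Type} [DecidableEq α] (c : α) (w : List α) :
    (w.filter (fun x => decide (x ≠ c))).length + w.count c = w.length := by
  induction w with
  | nil => simp
  | cons a l ih =>
    by_cases hac : a = c
    · subst hac
      rw [List.filter_cons_of_neg (by simp), List.count_cons_self, List.length_cons]
      omega
    · rw [List.filter_cons_of_pos (by simpa using hac), List.count_cons_of_ne (by simpa using hac),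
        List.length_cons, List.length_cons]
      omega

lemma lift_list {n : ℕ} (c : Fin (n + 1)) : ∀ l : List (Fin (n + 1)), (∀ x ∈ l, x ≠ c) →
    ∃ l' : List (Fin n), l'.map c.succAbove = l := by
  intro l
  induction l with
  | nil => intro _; exact ⟨[], rfl⟩
  | cons a l ih =>
    intro h
    obtain ⟨l', hl'⟩ := ih (fun x hx => h x (List.mem_cons_of_mem _ hx))
    obtain ⟨y, hy⟩ := Fin.exists_succAbove_eq (h a List.mem_cons_self)
    exact ⟨y :: l', by rw [List.map_cons, hl', hy]⟩

/-- removing a frequent letter: from a word over `Fin (n+1)` containing all `k`-permutations,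
`k ≤ n`, one gets such a word over `Fin n` shorter by at least `k` -/
theorem remove_letter {n k : ℕ} (hkn : k ≤ n) (w : List (Fin (n + 1)))
    (h : ∀ p : List (Fin (n + 1)), p.Nodup → p.length = k → List.Sublist p w) :
    ∃ w' : List (Fin n), w'.length + k ≤ w.length ∧
      ∀ p : List (Fin n), p.Nodup → p.length = k → List.Sublist p w' := by
  classical
  have hU : Universal k (Finset.univ : Finset (Fin (n + 1))) w := fun p hp _ hl => h p hp hl
  have hr := few_rare k Finset.univ w (by simp; omega) hU
  -- a letter occurring at least `k` times
  obtain ⟨c, hc⟩ : ∃ c : Fin (n + 1), k ≤ w.count c := by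
    by_contra hcon
    push Not at hcon
    have h0 : (Finset.univ.filter (fun c : Fin (n + 1) => w.count c < k)) = Finset.univ := by
      apply Finset.filter_true_of_mem
      intro c _
      exact hcon c
    rw [h0, Finset.card_univ, Fintype.card_fin] at hr
    omega
  -- remove it
  have hlen := length_filter_ne c w
  obtain ⟨w', hw'⟩ := lift_list c (w.filter (fun x => decide (x ≠ c))) (by
    intro x hx
    have := (List.mem_filter.1 hx).2
    simpa using this)
  refine ⟨w', ?_, ?_⟩
  · have h1 : w'.length = (w.filter (fun x => decide (x ≠ c))).length := by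
      rw [← hw', List.length_map]
    omega
  · intro p hp hl
    have h1 : List.Sublist (p.map c.succAbove) w :=
      h _ (hp.map Fin.succAbove_right_injective) (by simpa using hl)
    have h2 : List.Sublist ((p.map c.succAbove).filter (fun x => decide (x ≠ c)))
        (w.filter (fun x => decide (x ≠ c))) := h1.filter _
    have h3 : (p.map c.succAbove).filter (fun x => decide (x ≠ c)) = p.map c.succAbove := by
      rw [List.filter_eq_self]
      intro x hx
      obtain ⟨y, _, rfl⟩ := List.mem_map.1 hx
      simp
    rw [h3, ← hw', List.sublist_map_iff] at h2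
    obtain ⟨l', hl', he⟩ := h2
    rw [List.map_injective_iff.2 Fin.succAbove_right_injective he]
    exact hl'

end Pool.Agent.H426.KP
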